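import Pool.Agent.Helper15.T5.Stmts

set_option autoImplicit false

/-!
LGC: powers of a function with essential supremum `1`.
-/

open Finset MeasureTheory Filter Topology

namespace T5LGC

open Pool.Agent.Helper15.T4 Pool.Agent.Helper46.T5 Pool.Agent.Helper15.T5

section

variable {X : Type} [MeasurableSpace X] {μ : Measure X} [IsFiniteMeasure μ] {p : X → ℝ}

lemma int_pow (hp : Measurable p) (h0 : ∀ x, 0 ≤ p x) (h1 : ∀ x, p x ≤ 1) (n : ℕ) :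
    Integrable (fun x => p x ^ n) μ := by
  refine Integrable.mono' (integrable_const (1 : ℝ)) (hp.pow_const n).aestronglyMeasurable
    (ae_of_all _ fun x => ?_)
  rw [Real.norm_of_nonneg (pow_nonneg (h0 x) n)]
  exact pow_le_one₀ (h0 x) (h1 x)

lemma lower (hp : Measurable p) (h0 : ∀ x, 0 ≤ p x) (h1 : ∀ x, p x ≤ 1) {η : ℝ} (hη1 : η ≤ 1)
    (n : ℕ) : (1 - η) ^ n * μ.real {x | 1 - η < p x} ≤ ∫ x, p x ^ n ∂μ := by
  have hS : MeasurableSet {x | 1 - η < p x} := measurableSet_lt measurable_const hp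
  have e : ∫ x, ({x | 1 - η < p x}.indicator (fun _ => (1 - η) ^ n)) x ∂μ
      = μ.real {x | 1 - η < p x} * (1 - η) ^ n := by
    rw [integral_indicator_const _ hS, smul_eq_mul]
  rw [mul_comm, ← e]
  refine integral_mono ((integrable_const _).indicator hS) (int_pow hp h0 h1 n) fun x => ?_
  by_cases hx : x ∈ {x | 1 - η < p x}
  · simp only [Set.indicator_of_mem hx]
    exact pow_le_pow_left₀ (by linarith) (le_of_lt hx) n
  · simp only [Set.indicator_of_notMem hx]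
    exact pow_nonneg (h0 x) n

lemma pos_real {δ : ℝ} (h : μ {x | 1 - δ < p x} ≠ 0) : 0 < μ.real {x | 1 - δ < p x} := by
  rw [Measure.real, ENNReal.toReal_pos_iff]
  exact ⟨pos_iff_ne_zero.mpr h, measure_lt_top _ _⟩

lemma pos_int (hp : Measurable p) (h0 : ∀ x, 0 ≤ p x) (h1 : ∀ x, p x ≤ 1)
    (hμ : ∀ δ : ℝ, 0 < δ → μ {x | 1 - δ < p x} ≠ 0) (n : ℕ) : 0 < ∫ x, p x ^ n ∂μ := by
  refine lt_of_lt_of_le ?_ (lower hp h0 h1 (η := 1 / 2) (by norm_num) n)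
  have := pos_real (hμ (1 / 2) (by norm_num))
  positivity

lemma third (hp : Measurable p) (h0 : ∀ x, 0 ≤ p x) (h1 : ∀ x, p x ≤ 1)
    (hμ : ∀ δ : ℝ, 0 < δ → μ {x | 1 - δ < p x} ≠ 0) (δ : ℝ) (v : ℕ) (hδ : 0 < δ) (hδ1 : δ < 1) :
    Tendsto (fun n : ℕ => (1 - δ) ^ (n - v) / ∫ x, p x ^ n ∂μ) atTop (𝓝 0) := by
  set c := μ.real {x | 1 - δ / 2 < p x} with hc
  have hcpos : 0 < c := pos_real (hμ (δ / 2) (by linarith))
  have hr0 : 0 < 1 - δ := by linarith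
  have hr1 : 0 < 1 - δ / 2 := by linarith
  have hlim : Tendsto (fun n : ℕ => ((1 - δ) ^ v)⁻¹ * c⁻¹ * ((1 - δ) / (1 - δ / 2)) ^ n) atTop
      (𝓝 (((1 - δ) ^ v)⁻¹ * c⁻¹ * 0)) := by
    refine Tendsto.const_mul _ (tendsto_pow_atTop_nhds_zero_of_lt_one (by positivity) ?_)
    rw [div_lt_one hr1]; linarith
  rw [mul_zero] at hlim
  refine squeeze_zero' (Eventually.of_forall fun n => ?_) ?_ hlim
  · exact div_nonneg (by positivity) (pos_int hp h0 h1 hμ n).le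
  · filter_upwards [eventually_ge_atTop v] with n hn
    have hm := lower (μ := μ) hp h0 h1 (η := δ / 2) (by linarith) n
    have hm' : 0 < (1 - δ / 2) ^ n * c := by positivity
    have e : (1 - δ) ^ (n - v) = ((1 - δ) ^ v)⁻¹ * (1 - δ) ^ n := by
      rw [pow_sub₀ _ hr0.ne' hn, mul_comm]
    calc (1 - δ) ^ (n - v) / ∫ x, p x ^ n ∂μ ≤ (1 - δ) ^ (n - v) / ((1 - δ / 2) ^ n * c) := by
          gcongr
      _ = ((1 - δ) ^ v)⁻¹ * c⁻¹ * ((1 - δ) / (1 - δ / 2)) ^ n := by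
          rw [e, div_pow]
          field_simp

lemma upper (hp : Measurable p) (h0 : ∀ x, 0 ≤ p x) (h1 : ∀ x, p x ≤ 1) (δ : ℝ) (v : ℕ)
    (hδ : 0 < δ) (hδ1 : δ < 1) (n : ℕ) (hn : v ≤ n) :
    ∫ x, p x ^ (n - v) ∂μ ≤ ((1 - δ) ^ v)⁻¹ * ∫ x, p x ^ n ∂μ + (1 - δ) ^ (n - v) * μ.real Set.univ := by
  have hr0 : 0 < 1 - δ := by linarith
  have e : ((1 - δ) ^ v)⁻¹ * ∫ x, p x ^ n ∂μ + (1 - δ) ^ (n - v) * μ.real Set.univ
      = ∫ x, (((1 - δ) ^ v)⁻¹ * p x ^ n + (1 - δ) ^ (n - v)) ∂μ := by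
    rw [integral_add ((int_pow hp h0 h1 n).const_mul _) (integrable_const _), integral_const_mul,
      integral_const, smul_eq_mul, mul_comm (μ.real Set.univ)]
  rw [e]
  refine integral_mono (int_pow hp h0 h1 _)
    (((int_pow hp h0 h1 n).const_mul _).add (integrable_const _)) fun x => ?_
  by_cases hx : p x ≤ 1 - δ
  · have := pow_le_pow_left₀ (h0 x) hx (n - v)
    have h2 : 0 ≤ ((1 - δ) ^ v)⁻¹ * p x ^ n := mul_nonneg (by positivity) (pow_nonneg (h0 x) n)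
    simp only
    linarith
  · push Not at hx
    have hpx : 0 < p x := lt_trans hr0 hx
    have h2 : p x ^ (n - v) ≤ ((1 - δ) ^ v)⁻¹ * p x ^ n := by
      rw [pow_sub₀ _ hpx.ne' hn, mul_comm]
      gcongr
    have h3 : 0 ≤ (1 - δ) ^ (n - v) := by positivity
    simp only
    linarith

theorem st_LGC : ST_LGC := by
  intro X _ μ _ p hp h0 h1 hμ
  refine ⟨pos_int hp h0 h1 hμ, ?_, fun δ v hδ hδ1 => third hp h0 h1 hμ δ v hδ hδ1⟩
  intro v
  rw [Metric.tendsto_nhds]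
  intro ε hε
  -- choose δ
  have hcont : Tendsto (fun δ : ℝ => ((1 - δ) ^ v)⁻¹) (𝓝[>] 0) (𝓝 1) := by
    have : ContinuousAt (fun δ : ℝ => ((1 - δ) ^ v)⁻¹) 0 := by
      refine ContinuousAt.inv₀ (by fun_prop) (by simp)
    have h := this.tendsto
    simp only [sub_zero, one_pow, inv_one] at h
    exact h.mono_left nhdsWithin_le_nhds
  obtain ⟨δ, hδ⟩ := ((hcont.eventually (gt_mem_nhds (show (1 : ℝ) < 1 + ε / 2 by linarith))).and
    ((eventually_nhdsWithin_of_forall (fun x hx => hx)).and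
      (mem_nhdsWithin_of_mem_nhds (gt_mem_nhds (show (0 : ℝ) < 1 by norm_num))))).exists
  obtain ⟨hδ1, hδ0, hδ2⟩ := hδ
  have hδ0 : 0 < δ := hδ0
  have hδ2 : δ < 1 := hδ2
  have ht := (third hp h0 h1 hμ δ v hδ0 hδ2).mul_const (μ.real Set.univ)
  rw [zero_mul] at ht
  filter_upwards [eventually_ge_atTop v, ht.eventually (gt_mem_nhds (show (0 : ℝ) < ε / 2 by linarith))]
    with n hn hn2
  have hm : 0 < ∫ x, p x ^ n ∂μ := pos_int hp h0 h1 hμ n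
  have hu := upper (μ := μ) hp h0 h1 δ v hδ0 hδ2 n hn
  have hlow : ∫ x, p x ^ n ∂μ ≤ ∫ x, p x ^ (n - v) ∂μ :=
    integral_mono (int_pow hp h0 h1 _) (int_pow hp h0 h1 _) fun x =>
      pow_le_pow_of_le_one (h0 x) (h1 x) (Nat.sub_le n v)
  have h3 : 1 ≤ (∫ x, p x ^ (n - v) ∂μ) / ∫ x, p x ^ n ∂μ := by
    rw [le_div_iff₀ hm, one_mul]; exact hlow
  have h4 : (∫ x, p x ^ (n - v) ∂μ) / ∫ x, p x ^ n ∂μ ≤ ((1 - δ) ^ v)⁻¹
      + (1 - δ) ^ (n - v) / (∫ x, p x ^ n ∂μ) * μ.real Set.univ := by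
    rw [div_le_iff₀ hm]
    calc ∫ x, p x ^ (n - v) ∂μ ≤ _ := hu
      _ = _ := by field_simp
  rw [Real.dist_eq, abs_lt]
  constructor
  · linarith
  · linarith

end

end T5LGC
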