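import Pool.Agent.Helper46.T5.Stmts

/-!
# The Hessian at the peak (T5, `MP_2f9829_co`)
-/

set_option autoImplicit false
set_option maxHeartbeats 1000000

namespace T5H72

open Finset Pool.Agent.Helper15.T4 Pool.Agent.Helper46.T5

lemma sum_pi {K : ℕ} {α : Type} [Fintype α] [DecidableEq α] (F : Fin K → α → ℝ) :
    ∑ c : Fin K → α, ∏ p, F p (c p) = ∏ p, ∑ u, F p u := by
  rw [Finset.prod_univ_sum, Fintype.piFinset_univ]

/-- sums over the replicas `Fin K × Fin 2` -/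
lemma sum_rep {K : ℕ} (G : Fin K → Fin 3 → Fin 3 → ℝ) :
    ∑ a : Fin K × Fin 2 → Fin 3, ∏ p, G p (a (p, 0)) (a (p, 1))
      = ∏ p, ∑ x : Fin 3, ∑ y : Fin 3, G p x y := by
  have e1 : ∑ a : Fin K × Fin 2 → Fin 3, ∏ p, G p (a (p, 0)) (a (p, 1))
      = ∑ a : Fin K → Fin 2 → Fin 3, ∏ p, G p (a p 0) (a p 1) := by
    refine Fintype.sum_equiv (Equiv.curry (Fin K) (Fin 2) (Fin 3)) _ _ ?_
    intro a
    rfl
  rw [e1, sum_pi (fun p (s : Fin 2 → Fin 3) => G p (s 0) (s 1))]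
  refine Finset.prod_congr rfl fun p _ => ?_
  have e2 : ∑ s : Fin 2 → Fin 3, G p (s 0) (s 1) = ∑ z : Fin 3 × Fin 3, G p z.1 z.2 :=
    Fintype.sum_equiv (finTwoArrowEquiv (Fin 3)) _ _ (fun s => rfl)
  rw [e2, Fintype.sum_prod_type]

/-- the product over the replicas -/
lemma prod_rep {K : ℕ} (f : Fin K × Fin 2 → ℝ) : ∏ j, f j = ∏ p, (f (p, 0) * f (p, 1)) := by
  rw [Fintype.prod_prod_type]
  simp [Fin.prod_univ_two]

/-- The trilinear form of one pair of replicas. -/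
def T2 (X Y Z : M3) : ℝ :=
  ∑ a : Fin 3, ∑ a' : Fin 3, ∑ b : Fin 3, ∑ b' : Fin 3, ∑ c : Fin 3, ∑ c' : Fin 3,
      ((eps a b c : ℤ) : ℝ) * ((eps a' b' c' : ℤ) : ℝ) * X a a' * Y b b' * Z c c'

/-- product formula for the trilinear form of the replicas `Fin K × Fin 2` -/
lemma TJ_prod {K : ℕ} (X Y Z : Fin K → M3) :
    TJ (Fin K × Fin 2) (fun a => ∏ p, X p (a (p, 0)) (a (p, 1)))
      (fun a => ∏ p, Y p (a (p, 0)) (a (p, 1))) (fun a => ∏ p, Z p (a (p, 0)) (a (p, 1)))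
    = ∏ p, T2 (X p) (Y p) (Z p) := by
  unfold TJ T2
  have e1 : ∀ a b : Fin K × Fin 2 → Fin 3,
      ∑ c : Fin K × Fin 2 → Fin 3,
        (∏ j, ((eps (a j) (b j) (c j) : ℤ) : ℝ)) * (∏ p, X p (a (p, 0)) (a (p, 1))) *
          (∏ p, Y p (b (p, 0)) (b (p, 1))) * (∏ p, Z p (c (p, 0)) (c (p, 1)))
      = ∏ p, ∑ c : Fin 3, ∑ c' : Fin 3, ((eps (a (p, 0)) (b (p, 0)) c : ℤ) : ℝ) *
          ((eps (a (p, 1)) (b (p, 1)) c' : ℤ) : ℝ) * X p (a (p, 0)) (a (p, 1)) *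
            Y p (b (p, 0)) (b (p, 1)) * Z p c c' := by
    intro a b
    rw [← sum_rep (fun p c c' => ((eps (a (p, 0)) (b (p, 0)) c : ℤ) : ℝ) *
          ((eps (a (p, 1)) (b (p, 1)) c' : ℤ) : ℝ) * X p (a (p, 0)) (a (p, 1)) *
            Y p (b (p, 0)) (b (p, 1)) * Z p c c')]
    refine Finset.sum_congr rfl fun c _ => ?_
    rw [prod_rep, ← Finset.prod_mul_distrib, ← Finset.prod_mul_distrib, ← Finset.prod_mul_distrib]
  simp only [e1]
  have e2 : ∀ a : Fin K × Fin 2 → Fin 3,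
      ∑ b : Fin K × Fin 2 → Fin 3, ∏ p, ∑ c : Fin 3, ∑ c' : Fin 3,
          ((eps (a (p, 0)) (b (p, 0)) c : ℤ) : ℝ) *
          ((eps (a (p, 1)) (b (p, 1)) c' : ℤ) : ℝ) * X p (a (p, 0)) (a (p, 1)) *
            Y p (b (p, 0)) (b (p, 1)) * Z p c c'
      = ∏ p, ∑ b : Fin 3, ∑ b' : Fin 3, ∑ c : Fin 3, ∑ c' : Fin 3,
          ((eps (a (p, 0)) b c : ℤ) : ℝ) *
          ((eps (a (p, 1)) b' c' : ℤ) : ℝ) * X p (a (p, 0)) (a (p, 1)) *
            Y p b b' * Z p c c' := by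
    intro a
    exact sum_rep (fun p b b' => ∑ c : Fin 3, ∑ c' : Fin 3,
          ((eps (a (p, 0)) b c : ℤ) : ℝ) *
          ((eps (a (p, 1)) b' c' : ℤ) : ℝ) * X p (a (p, 0)) (a (p, 1)) *
            Y p b b' * Z p c c')
  simp only [e2]
  exact sum_rep (fun p a a' => ∑ b : Fin 3, ∑ b' : Fin 3, ∑ c : Fin 3, ∑ c' : Fin 3,
          ((eps a b c : ℤ) : ℝ) * ((eps a' b' c' : ℤ) : ℝ) * X p a a' * Y p b b' * Z p c c')

lemma sum_eps (f : Fin 3 → Fin 3 → Fin 3 → ℝ) :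
    ∑ a : Fin 3, ∑ b : Fin 3, ∑ c : Fin 3, ((eps a b c : ℤ) : ℝ) * f a b c
      = f 0 1 2 + f 1 2 0 + f 2 0 1 - f 0 2 1 - f 2 1 0 - f 1 0 2 := by
  simp [Fin.sum_univ_three, eps]
  ring

/-- explicit form of the trilinear form of one pair of replicas -/
lemma T2_explicit (X Y Z : M3) : T2 X Y Z =
    X 0 0 * (Y 1 1 * Z 2 2 - Y 1 2 * Z 2 1 - Y 2 1 * Z 1 2 + Y 2 2 * Z 1 1)
    + X 0 1 * (Y 1 2 * Z 2 0 - Y 1 0 * Z 2 2 - Y 2 2 * Z 1 0 + Y 2 0 * Z 1 2)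
    + X 0 2 * (Y 1 0 * Z 2 1 - Y 1 1 * Z 2 0 - Y 2 0 * Z 1 1 + Y 2 1 * Z 1 0)
    + X 1 0 * (Y 2 1 * Z 0 2 - Y 2 2 * Z 0 1 - Y 0 1 * Z 2 2 + Y 0 2 * Z 2 1)
    + X 1 1 * (Y 2 2 * Z 0 0 - Y 2 0 * Z 0 2 - Y 0 2 * Z 2 0 + Y 0 0 * Z 2 2)
    + X 1 2 * (Y 2 0 * Z 0 1 - Y 2 1 * Z 0 0 - Y 0 0 * Z 2 1 + Y 0 1 * Z 2 0)
    + X 2 0 * (Y 0 1 * Z 1 2 - Y 0 2 * Z 1 1 - Y 1 1 * Z 0 2 + Y 1 2 * Z 0 1)
    + X 2 1 * (Y 0 2 * Z 1 0 - Y 0 0 * Z 1 2 - Y 1 2 * Z 0 0 + Y 1 0 * Z 0 2)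
    + X 2 2 * (Y 0 0 * Z 1 1 - Y 0 1 * Z 1 0 - Y 1 0 * Z 0 1 + Y 1 1 * Z 0 0) := by
  have e : T2 X Y Z = ∑ a : Fin 3, ∑ b : Fin 3, ∑ c : Fin 3, ((eps a b c : ℤ) : ℝ) *
      (∑ a' : Fin 3, ∑ b' : Fin 3, ∑ c' : Fin 3, ((eps a' b' c' : ℤ) : ℝ) *
        (X a a' * Y b b' * Z c c')) := by
    unfold T2
    simp only [Finset.mul_sum]
    refine Finset.sum_congr rfl fun a _ => ?_
    rw [Finset.sum_comm]
    refine Finset.sum_congr rfl fun b _ => ?_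
    have : ∀ a' : Fin 3, ∑ b' : Fin 3, ∑ c : Fin 3, ∑ c' : Fin 3,
        ((eps a b c : ℤ) : ℝ) * ((eps a' b' c' : ℤ) : ℝ) * X a a' * Y b b' * Z c c'
        = ∑ c : Fin 3, ∑ b' : Fin 3, ∑ c' : Fin 3,
        ((eps a b c : ℤ) : ℝ) * ((eps a' b' c' : ℤ) : ℝ) * X a a' * Y b b' * Z c c' :=
      fun a' => Finset.sum_comm
    simp only [this]
    rw [Finset.sum_comm]
    refine Finset.sum_congr rfl fun c _ => Finset.sum_congr rfl fun a' _ =>
      Finset.sum_congr rfl fun b' _ => Finset.sum_congr rfl fun c' _ => ?_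
    ring
  rw [e, sum_eps]
  simp only [sum_eps (fun a' b' c' => X _ a' * Y _ b' * Z _ c')]
  ring

lemma T2_one (Y Z : M3) : T2 (1 : M3) Y Z = Y.trace * Z.trace - (Y * Z).trace := by
  rw [T2_explicit]
  simp [Matrix.trace, Matrix.mul_apply, Fin.sum_univ_three]
  ring

/-- scalar product of matrices -/
def mip (X Y : M3) : ℝ := ∑ i : Fin 3, ∑ j : Fin 3, X i j * Y i j

lemma s2 : Real.sqrt 2 * Real.sqrt 2 = 2 := Real.mul_self_sqrt (by norm_num)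
lemma s3 : Real.sqrt 3 * Real.sqrt 3 = 3 := Real.mul_self_sqrt (by norm_num)
lemma s6 : Real.sqrt 6 * Real.sqrt 6 = 6 := Real.mul_self_sqrt (by norm_num)
lemma i2 : (Real.sqrt 2)⁻¹ * (Real.sqrt 2)⁻¹ = 1 / 2 := by
  rw [← mul_inv, s2]; norm_num
lemma i3 : (Real.sqrt 3)⁻¹ * (Real.sqrt 3)⁻¹ = 1 / 3 := by
  rw [← mul_inv, s3]; norm_num
lemma i6 : (Real.sqrt 6)⁻¹ * (Real.sqrt 6)⁻¹ = 1 / 6 := by
  rw [← mul_inv, s6]; norm_num

lemma Em_0 : Em 0 = (Real.sqrt 3)⁻¹ • !![1, 0, 0; 0, 1, 0; 0, 0, 1] := by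
  have : (1 : M3) = !![1, 0, 0; 0, 1, 0; 0, 0, 1] := by
    ext i j; fin_cases i <;> fin_cases j <;> simp
  simp [Em, this]
lemma Em_1 : Em 1 = (Real.sqrt 2)⁻¹ • !![0, 0, 0; 0, 0, -1; 0, 1, 0] := by
  ext i j; fin_cases i <;> fin_cases j <;> simp [Em, skew]
lemma Em_2 : Em 2 = (Real.sqrt 2)⁻¹ • !![0, 0, 1; 0, 0, 0; -1, 0, 0] := by
  ext i j; fin_cases i <;> fin_cases j <;> simp [Em, skew]
lemma Em_3 : Em 3 = (Real.sqrt 2)⁻¹ • !![0, -1, 0; 1, 0, 0; 0, 0, 0] := by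
  ext i j; fin_cases i <;> fin_cases j <;> simp [Em, skew]
lemma Em_4 : Em 4 = (Real.sqrt 2)⁻¹ • !![0, 1, 0; 1, 0, 0; 0, 0, 0] := by
  simp [Em]
lemma Em_5 : Em 5 = (Real.sqrt 2)⁻¹ • !![0, 0, 1; 0, 0, 0; 1, 0, 0] := by
  simp [Em]
lemma Em_6 : Em 6 = (Real.sqrt 2)⁻¹ • !![0, 0, 0; 0, 0, 1; 0, 1, 0] := by
  simp [Em]
lemma Em_7 : Em 7 = (Real.sqrt 2)⁻¹ • !![1, 0, 0; 0, -1, 0; 0, 0, 0] := by
  simp [Em]
lemma Em_8 : Em 8 = (Real.sqrt 6)⁻¹ • !![1, 0, 0; 0, 1, 0; 0, 0, -2] := by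
  simp [Em]

/-- the basis without normalisation -/
def Bm (k : Fin 9) : M3 :=
  ![!![1, 0, 0; 0, 1, 0; 0, 0, 1], !![0, 0, 0; 0, 0, -1; 0, 1, 0], !![0, 0, 1; 0, 0, 0; -1, 0, 0],
    !![0, -1, 0; 1, 0, 0; 0, 0, 0], !![0, 1, 0; 1, 0, 0; 0, 0, 0], !![0, 0, 1; 0, 0, 0; 1, 0, 0],
    !![0, 0, 0; 0, 0, 1; 0, 1, 0], !![1, 0, 0; 0, -1, 0; 0, 0, 0],
    !![1, 0, 0; 0, 1, 0; 0, 0, -2]] k

noncomputable def cf (k : Fin 9) : ℝ :=
  ![(Real.sqrt 3)⁻¹, (Real.sqrt 2)⁻¹, (Real.sqrt 2)⁻¹, (Real.sqrt 2)⁻¹, (Real.sqrt 2)⁻¹,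
    (Real.sqrt 2)⁻¹, (Real.sqrt 2)⁻¹, (Real.sqrt 2)⁻¹, (Real.sqrt 6)⁻¹] k

lemma Em_eq (k : Fin 9) : Em k = cf k • Bm k := by
  fin_cases k
  · exact Em_0
  · exact Em_1
  · exact Em_2
  · exact Em_3
  · exact Em_4
  · exact Em_5
  · exact Em_6
  · exact Em_7
  · exact Em_8

def nb (k : Fin 9) : ℝ := ![3, 2, 2, 2, 2, 2, 2, 2, 6] k

lemma cf_nb (k : Fin 9) : cf k * cf k * nb k = 1 := by
  fin_cases k <;> simp [cf, nb, i2, i3, i6]

lemma Bm_ip (k l : Fin 9) : mip (Bm k) (Bm l) = if k = l then nb k else 0 := by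
  fin_cases k <;> fin_cases l <;>
  · simp [mip, Bm, nb, Fin.sum_univ_three]
    try norm_num

lemma mip_smul (c d : ℝ) (X Y : M3) : mip (c • X) (d • Y) = c * d * mip X Y := by
  simp only [mip, Matrix.smul_apply, smul_eq_mul, Finset.mul_sum]
  refine Finset.sum_congr rfl fun i _ => Finset.sum_congr rfl fun j _ => ?_
  ring

/-- the basis is orthonormal -/
lemma Em_ip (k l : Fin 9) : mip (Em k) (Em l) = if k = l then 1 else 0 := by
  rw [Em_eq, Em_eq, mip_smul, Bm_ip]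
  split_ifs with h
  · subst h; exact cf_nb k
  · simp

lemma T2_smul (c d e : ℝ) (X Y Z : M3) : T2 (c • X) (d • Y) (e • Z) = c * d * e * T2 X Y Z := by
  rw [T2_explicit, T2_explicit]
  simp only [Matrix.smul_apply, smul_eq_mul]
  ring

lemma Bm_T (k l : Fin 9) : T2 1 (Bm k) (Bm l) = if k = l then 2 * mu k * nb k else 0 := by
  rw [T2_one]
  fin_cases k <;> fin_cases l <;>
  · simp [Bm, nb, mu, Matrix.trace, Fin.sum_univ_three]
    try norm_num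

lemma qq_eq : qq = 2 * (Real.sqrt 3)⁻¹ := by
  rw [qq, div_eq_mul_inv]

lemma qq_pos : 0 < qq := by unfold qq; positivity

lemma Em_T (k l : Fin 9) :
    T2 ((Real.sqrt 3)⁻¹ • (1 : M3)) (Em k) (Em l) = if k = l then qq * mu k else 0 := by
  rw [Em_eq, Em_eq, T2_smul, Bm_T]
  split_ifs with h
  · subst h
    rw [qq_eq]
    linear_combination (2 * (Real.sqrt 3)⁻¹ * mu k) * cf_nb k
  · simp

lemma u0_eq (K : ℕ) : u0 K = fun a => ∏ p, ((Real.sqrt 3)⁻¹ • (1 : M3)) (a (p, 0)) (a (p, 1)) := by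
  funext a
  simp only [u0, pt, Matrix.smul_apply, smul_eq_mul]
  refine Finset.prod_congr rfl fun p _ => ?_
  rw [div_eq_inv_mul]
  rfl

/-- The Hessian is diagonal in the basis `eb`. -/
theorem TJ_eb {K : ℕ} (b b' : Fin K → Fin 9) :
    TJ (Fin K × Fin 2) (u0 K) (eb b) (eb b') = if b = b' then qq ^ K * ∏ p, mu (b p) else 0 := by
  have e1 : eb b = fun a => ∏ p, (Em (b p)) (a (p, 0)) (a (p, 1)) := rfl
  have e2 : eb b' = fun a => ∏ p, (Em (b' p)) (a (p, 0)) (a (p, 1)) := rfl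
  rw [u0_eq, e1, e2, TJ_prod (fun _ => (Real.sqrt 3)⁻¹ • (1 : M3)) (fun p => Em (b p))
    (fun p => Em (b' p))]
  simp only [Em_T]
  split_ifs with h
  · subst h
    simp [Finset.prod_mul_distrib]
  · obtain ⟨p, hp⟩ := Function.ne_iff.mp h
    exact Finset.prod_eq_zero (Finset.mem_univ p) (by simp [hp])

/-- The basis `eb` is orthonormal. -/
theorem ip_eb {K : ℕ} (b b' : Fin K → Fin 9) : ip (eb b) (eb b') = if b = b' then 1 else 0 := by
  have e : ip (eb b) (eb b') = ∑ a : Fin K × Fin 2 → Fin 3,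
      ∏ p, (Em (b p) (a (p, 0)) (a (p, 1)) * Em (b' p) (a (p, 0)) (a (p, 1))) := by
    unfold ip eb
    refine Finset.sum_congr rfl fun a _ => ?_
    rw [Finset.prod_mul_distrib]
  rw [e, sum_rep (fun p x y => Em (b p) x y * Em (b' p) x y)]
  have e2 : ∀ p, ∑ x : Fin 3, ∑ y : Fin 3, Em (b p) x y * Em (b' p) x y
      = if b p = b' p then 1 else 0 := fun p => Em_ip _ _
  simp only [e2]
  split_ifs with h
  · subst h; simp
  · obtain ⟨p, hp⟩ := Function.ne_iff.mp h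
    exact Finset.prod_eq_zero (Finset.mem_univ p) (by simp [hp])

/-- Completeness of the basis. -/
theorem eb_complete {K : ℕ} (a a' : Fin K × Fin 2 → Fin 3) :
    ∑ b : Fin K → Fin 9, eb b a * eb b a' = if a = a' then 1 else 0 := by
  classical
  let E : Matrix (Fin K → Fin 9) (Fin K × Fin 2 → Fin 3) ℝ := Matrix.of fun b a => eb b a
  have h1 : E * E.transpose = 1 := by
    ext b b'
    rw [Matrix.mul_apply, Matrix.one_apply]
    exact ip_eb b b'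
  have hc : Fintype.card (Fin K → Fin 9) = Fintype.card (Fin K × Fin 2 → Fin 3) := by
    simp [Fintype.card_prod]
    rw [mul_comm, pow_mul]; norm_num
  have h2 : E.transpose * E = 1 :=
    (Matrix.mul_eq_one_comm_of_equiv (Fintype.equivOfCardEq hc)).mp h1
  have := congrFun (congrFun h2 a) a'
  rw [Matrix.mul_apply, Matrix.one_apply] at this
  exact this

/-- Expansion in the basis. -/
theorem eb_expand {K : ℕ} (h : (Fin K × Fin 2 → Fin 3) → ℝ) (a : Fin K × Fin 2 → Fin 3) :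
    h a = ∑ b : Fin K → Fin 9, ip (eb b) h * eb b a := by
  unfold ip
  simp only [Finset.sum_mul]
  rw [Finset.sum_comm]
  have : ∀ a' : Fin K × Fin 2 → Fin 3, ∑ b : Fin K → Fin 9, eb b a' * h a' * eb b a
      = h a' * (if a' = a then 1 else 0) := by
    intro a'
    rw [← eb_complete a' a, Finset.mul_sum]
    refine Finset.sum_congr rfl fun b _ => by ring
  simp only [this]
  simp

/-- Parseval. -/
theorem nsq_eb {K : ℕ} (h : (Fin K × Fin 2 → Fin 3) → ℝ) :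
    nsq h = ∑ b : Fin K → Fin 9, ip (eb b) h ^ 2 := by
  have : nsq h = ∑ a, (∑ b : Fin K → Fin 9, ip (eb b) h * eb b a) * h a := by
    unfold nsq
    refine Finset.sum_congr rfl fun a _ => ?_
    rw [← eb_expand, sq]
  rw [this]
  simp only [Finset.sum_mul]
  rw [Finset.sum_comm]
  refine Finset.sum_congr rfl fun b _ => ?_
  rw [sq]
  conv_rhs => rw [ip, Finset.mul_sum]
  refine Finset.sum_congr rfl fun a _ => ?_
  unfold ip
  ring

lemma TJ_lin {K : ℕ} {ι : Type} [Fintype ι] (x y : (Fin K × Fin 2 → Fin 3) → ℝ) (r : ι → ℝ)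
    (z : ι → (Fin K × Fin 2 → Fin 3) → ℝ) :
    TJ (Fin K × Fin 2) x y (fun a => ∑ i, r i * z i a) = ∑ i, r i * TJ (Fin K × Fin 2) x y (z i) := by
  unfold TJ
  simp only [Finset.mul_sum]
  have e1 : ∀ a b : Fin K × Fin 2 → Fin 3,
      ∑ c : Fin K × Fin 2 → Fin 3, ∑ i, (∏ j, ((eps (a j) (b j) (c j) : ℤ) : ℝ)) * x a * y b *
        (r i * z i c) = ∑ i, ∑ c : Fin K × Fin 2 → Fin 3,
          r i * ((∏ j, ((eps (a j) (b j) (c j) : ℤ) : ℝ)) * x a * y b * z i c) := by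
    intro a b
    rw [Finset.sum_comm]
    refine Finset.sum_congr rfl fun i _ => Finset.sum_congr rfl fun c _ => by ring
  simp only [e1]
  have e2 : ∀ a : Fin K × Fin 2 → Fin 3,
      ∑ b : Fin K × Fin 2 → Fin 3, ∑ i, ∑ c : Fin K × Fin 2 → Fin 3,
          r i * ((∏ j, ((eps (a j) (b j) (c j) : ℤ) : ℝ)) * x a * y b * z i c)
      = ∑ i, ∑ b : Fin K × Fin 2 → Fin 3, ∑ c : Fin K × Fin 2 → Fin 3,
          r i * ((∏ j, ((eps (a j) (b j) (c j) : ℤ) : ℝ)) * x a * y b * z i c) := by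
    intro a
    rw [Finset.sum_comm]
  simp only [e2]
  rw [Finset.sum_comm]

theorem st_EBO : ST_EBO := by
  intro K
  refine ⟨fun b c => ip_eb b c, fun h => nsq_eb h, ?_⟩
  funext a
  rw [u0_eq]
  unfold eb
  refine Finset.prod_congr rfl fun p _ => ?_
  simp [Em]

theorem st_EBT : ST_EBT := by
  intro K b h
  have hh : h = fun a => ∑ c : Fin K → Fin 9, ip (eb c) h * eb c a := funext fun a => eb_expand h a
  conv_lhs => rw [hh]
  rw [TJ_lin]
  simp only [TJ_eb]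
  rw [Finset.sum_eq_single b]
  · simp; ring
  · intro c _ hc
    rw [if_neg (Ne.symm hc), mul_zero]
  · intro h; exact absurd (Finset.mem_univ b) h

lemma TJ_lin2 {K : ℕ} {ι : Type} [Fintype ι] (x z : (Fin K × Fin 2 → Fin 3) → ℝ) (r : ι → ℝ)
    (y : ι → (Fin K × Fin 2 → Fin 3) → ℝ) :
    TJ (Fin K × Fin 2) x (fun a => ∑ i, r i * y i a) z = ∑ i, r i * TJ (Fin K × Fin 2) x (y i) z := by
  unfold TJ
  simp only [Finset.mul_sum, Finset.sum_mul]
  have e1 : ∀ a b : Fin K × Fin 2 → Fin 3,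
      ∑ c : Fin K × Fin 2 → Fin 3, ∑ i, (∏ j, ((eps (a j) (b j) (c j) : ℤ) : ℝ)) * x a *
        (r i * y i b) * z c = ∑ i, ∑ c : Fin K × Fin 2 → Fin 3,
          r i * ((∏ j, ((eps (a j) (b j) (c j) : ℤ) : ℝ)) * x a * y i b * z c) := by
    intro a b
    rw [Finset.sum_comm]
    refine Finset.sum_congr rfl fun i _ => Finset.sum_congr rfl fun c _ => by ring
  simp only [e1]
  have e2 : ∀ a : Fin K × Fin 2 → Fin 3,
      ∑ b : Fin K × Fin 2 → Fin 3, ∑ i, ∑ c : Fin K × Fin 2 → Fin 3,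
          r i * ((∏ j, ((eps (a j) (b j) (c j) : ℤ) : ℝ)) * x a * y i b * z c)
      = ∑ i, ∑ b : Fin K × Fin 2 → Fin 3, ∑ c : Fin K × Fin 2 → Fin 3,
          r i * ((∏ j, ((eps (a j) (b j) (c j) : ℤ) : ℝ)) * x a * y i b * z c) := by
    intro a
    rw [Finset.sum_comm]
  simp only [e2]
  rw [Finset.sum_comm]

lemma TJ_quad {K : ℕ} (h : (Fin K × Fin 2 → Fin 3) → ℝ) :
    TJ (Fin K × Fin 2) (u0 K) h h
      = ∑ b : Fin K → Fin 9, qq ^ K * (∏ p, mu (b p)) * ip (eb b) h ^ 2 := by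
  have hh : h = fun a => ∑ c : Fin K → Fin 9, ip (eb c) h * eb c a := funext fun a => eb_expand h a
  have e : TJ (Fin K × Fin 2) (u0 K) h h = TJ (Fin K × Fin 2) (u0 K)
      (fun a => ∑ c : Fin K → Fin 9, ip (eb c) h * eb c a) h := by rw [← hh]
  rw [e, TJ_lin2]
  refine Finset.sum_congr rfl fun b _ => ?_
  rw [st_EBT K b h]
  ring

lemma mu_zero : mu 0 = 1 := by simp [mu]

lemma mu_half {k : Fin 9} (hk : k = 1 ∨ k = 2 ∨ k = 3) : mu k = 1 / 2 := by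
  rcases hk with rfl | rfl | rfl <;> simp [mu]

lemma mu_neg {k : Fin 9} (h0 : k ≠ 0) (hk : ¬ (k = 1 ∨ k = 2 ∨ k = 3)) : mu k = -(1 / 2) := by
  simp only [mu, if_neg h0, if_neg hk]

lemma mu_abs (k : Fin 9) : |mu k| ≤ 1 := by
  by_cases h0 : k = 0
  · rw [h0, mu_zero]; simp
  · by_cases hk : k = 1 ∨ k = 2 ∨ k = 3
    · rw [mu_half hk, abs_of_pos (by norm_num)]; norm_num
    · rw [mu_neg h0 hk, abs_neg, abs_of_pos (by norm_num)]; norm_num

lemma mu_abs_ne {k : Fin 9} (h0 : k ≠ 0) : |mu k| ≤ 1 / 2 := by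
  by_cases hk : k = 1 ∨ k = 2 ∨ k = 3
  · rw [mu_half hk, abs_of_pos (by norm_num)]
  · rw [mu_neg h0 hk, abs_neg, abs_of_pos (by norm_num)]

lemma prod_mu_one {K : ℕ} {b : Fin K → Fin 9} {p : Fin K} (h : ∀ p', p' ≠ p → b p' = 0) :
    ∏ p', mu (b p') = mu (b p) := by
  rw [Finset.prod_eq_single p]
  · intro p' _ hp'; rw [h p' hp', mu_zero]
  · intro h'; exact absurd (Finset.mem_univ p) h'

lemma mem_Tan {K : ℕ} {b : Fin K → Fin 9} : b ∈ Tan K ↔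
    ∃ p, (b p = 1 ∨ b p = 2 ∨ b p = 3) ∧ ∀ p', p' ≠ p → b p' = 0 := by
  simp [Tan]

lemma ev5_tan {K : ℕ} {b : Fin K → Fin 9} (hb : b ∈ Tan K) : 0 ≤ ev5 b := by
  obtain ⟨p, hp, hp'⟩ := mem_Tan.mp hb
  unfold ev5
  rw [prod_mu_one hp', mu_half hp]
  split_ifs <;> norm_num

lemma ev5_tan_eq {K : ℕ} {b : Fin K → Fin 9} (hb : b ∈ Tan K) : ev5 b = 0 := by
  obtain ⟨p, hp, hp'⟩ := mem_Tan.mp hb
  unfold ev5
  rw [prod_mu_one hp', mu_half hp]
  have : b ≠ 0 := by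
    intro h
    rw [h] at hp
    simp at hp
  rw [if_neg this]; norm_num

lemma ev5_ntan {K : ℕ} {b : Fin K → Fin 9} (hb : b ∉ Tan K) : 3 / 2 ≤ ev5 b := by
  by_cases h0 : b = 0
  · subst h0
    simp [ev5, mu_zero]; norm_num
  · obtain ⟨p, hp⟩ := Function.ne_iff.mp h0
    have hp0 : b p ≠ 0 := hp
    unfold ev5
    rw [if_neg h0]
    by_cases h1 : ∀ p', p' ≠ p → b p' = 0
    · have hk : ¬ (b p = 1 ∨ b p = 2 ∨ b p = 3) := fun hk => hb (mem_Tan.mpr ⟨p, hk, h1⟩)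
      rw [prod_mu_one h1, mu_neg hp0 hk]; norm_num
    · push Not at h1
      obtain ⟨p', hne, hp'⟩ := h1
      have habs : |∏ q, mu (b q)| ≤ 1 / 4 := by
        rw [Finset.abs_prod, ← Finset.mul_prod_erase _ _ (Finset.mem_univ p),
          ← Finset.mul_prod_erase _ _ (Finset.mem_erase.mpr ⟨hne, Finset.mem_univ p'⟩)]
        have e1 := mu_abs_ne hp0
        have e2 := mu_abs_ne hp'
        have e3 : ∏ q ∈ (Finset.univ.erase p).erase p', |mu (b q)| ≤ 1 :=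
          Finset.prod_le_one (fun _ _ => abs_nonneg _) (fun _ _ => mu_abs _)
        have e4 : 0 ≤ ∏ q ∈ (Finset.univ.erase p).erase p', |mu (b q)| :=
          Finset.prod_nonneg fun _ _ => abs_nonneg _
        calc |mu (b p)| * (|mu (b p')| * ∏ q ∈ (Finset.univ.erase p).erase p', |mu (b q)|)
            ≤ (1 / 2) * ((1 / 2) * 1) := by
              gcongr
          _ = 1 / 4 := by norm_num
      have := (abs_le.mp habs).2
      linarith

lemma Q5_eq (K : ℕ) (h : (Fin K × Fin 2 → Fin 3) → ℝ) :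
    Q5 K h = ∑ b : Fin K → Fin 9, ev5 b * ip (eb b) h ^ 2 := by
  have h0 : u0 K = eb (0 : Fin K → Fin 9) := ((st_EBO K).2.2).symm
  have hq : qq ^ K ≠ 0 := (pow_pos qq_pos K).ne'
  unfold Q5
  rw [TJ_quad, nsq_eb]
  have e1 : 9 * ip (u0 K) h ^ 2
      = ∑ b : Fin K → Fin 9, (if b = 0 then 9 else 0) * ip (eb b) h ^ 2 := by
    rw [Finset.sum_eq_single (0 : Fin K → Fin 9)]
    · simp [h0]
    · intro b _ hb; simp [hb]
    · intro h'; exact absurd (Finset.mem_univ _) h'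
  have e2 : 6 * (∑ b : Fin K → Fin 9, qq ^ K * (∏ p, mu (b p)) * ip (eb b) h ^ 2) / qq ^ K
      = ∑ b : Fin K → Fin 9, 6 * (∏ p, mu (b p)) * ip (eb b) h ^ 2 := by
    rw [Finset.mul_sum, Finset.sum_div]
    refine Finset.sum_congr rfl fun b _ => ?_
    field_simp
  rw [e1, e2, Finset.mul_sum, ← Finset.sum_sub_distrib, ← Finset.sum_add_distrib]
  refine Finset.sum_congr rfl fun b _ => ?_
  unfold ev5
  ring

theorem st_HES' : ST_HES := by
  intro K h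
  have htq0 : 0 ≤ tq K h := Finset.sum_nonneg fun _ _ => sq_nonneg _
  have htq1 : tq K h ≤ nsq h := by
    rw [nsq_eb]
    exact Finset.sum_le_sum_of_subset_of_nonneg (Finset.subset_univ _) fun _ _ _ => sq_nonneg _
  refine ⟨Q5_eq K h, ?_, htq1, htq0⟩
  classical
  have e1 : nsq h - tq K h = ∑ b : Fin K → Fin 9, (if b ∈ Tan K then 0 else 1) * ip (eb b) h ^ 2 := by
    rw [nsq_eb]
    unfold tq
    rw [← Finset.sum_filter_add_sum_filter_not Finset.univ (fun b => b ∈ Tan K)]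
    have : Finset.univ.filter (fun b => b ∈ Tan K) = Tan K := by ext; simp
    rw [this, add_sub_cancel_left, Finset.sum_filter]
    refine Finset.sum_congr rfl fun b _ => ?_
    by_cases hb : b ∈ Tan K <;> simp [hb]
  rw [e1, Q5_eq, Finset.mul_sum]
  refine Finset.sum_le_sum fun b _ => ?_
  by_cases hb : b ∈ Tan K
  · rw [if_pos hb]
    have := ev5_tan hb
    have : 0 ≤ ev5 b * ip (eb b) h ^ 2 := mul_nonneg this (sq_nonneg _)
    linarith
  · rw [if_neg hb]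
    have := ev5_ntan hb
    nlinarith [sq_nonneg (ip (eb b) h)]

/-- HES in the form of the table. -/
theorem st_HES (_ : ST_EBO) (_ : ST_EBT) : ST_HES := st_HES'

/-- the tangential basis vectors -/
def tau {K : ℕ} (x : Fin K × Fin 3) : Fin K → Fin 9 :=
  Function.update (0 : Fin K → Fin 9) x.1 ⟨x.2.val + 1, by omega⟩

lemma tau_inj {K : ℕ} : Function.Injective (tau : Fin K × Fin 3 → Fin K → Fin 9) := by
  rintro ⟨p, i⟩ ⟨p', i'⟩ h
  have hp : p = p' := by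
    by_contra hne
    have := congrFun h p
    simp only [tau, Function.update_self, Function.update_of_ne hne, Pi.zero_apply] at this
    have := congrArg Fin.val this
    simp at this
  subst hp
  have := congrFun h p
  simp only [tau, Function.update_self] at this
  have h2 := congrArg Fin.val this
  simp only [Nat.add_right_cancel_iff] at h2
  rw [Prod.mk.injEq]
  exact ⟨rfl, Fin.ext h2⟩

lemma Tan_eq (K : ℕ) : Tan K = Finset.univ.image (tau : Fin K × Fin 3 → Fin K → Fin 9) := by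
  ext b
  rw [mem_Tan, Finset.mem_image]
  constructor
  · rintro ⟨p, hp, hp'⟩
    rcases hp with h | h | h
    · refine ⟨(p, 0), Finset.mem_univ _, ?_⟩
      funext q
      by_cases hq : q = p
      · subst hq; simp [tau, h]
      · simp [tau, Function.update_of_ne hq, hp' q hq]
    · refine ⟨(p, 1), Finset.mem_univ _, ?_⟩
      funext q
      by_cases hq : q = p
      · subst hq; simp [tau, h]
      · simp [tau, Function.update_of_ne hq, hp' q hq]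
    · refine ⟨(p, 2), Finset.mem_univ _, ?_⟩
      funext q
      by_cases hq : q = p
      · subst hq; simp [tau, h]
      · simp [tau, Function.update_of_ne hq, hp' q hq]
  · rintro ⟨⟨p, i⟩, -, rfl⟩
    refine ⟨p, ?_, fun q hq => by simp [tau, Function.update_of_ne hq]⟩
    fin_cases i <;> simp [tau]

lemma tq_eq (K : ℕ) (h : (Fin K × Fin 2 → Fin 3) → ℝ) :
    tq K h = ∑ p, ∑ i : Fin 3, ip (eb (tau (p, i))) h ^ 2 := by
  unfold tq
  rw [Tan_eq, Finset.sum_image (fun _ _ _ _ h => tau_inj h), Fintype.sum_prod_type]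

lemma Lm_eq {K : ℕ} (w : Fin K → Fin 3 → ℝ) :
    Lm w = fun a => ∑ p, ∑ i : Fin 3, Real.sqrt (8 / 3) * w p i * eb (tau (p, i)) a := rfl

lemma ip_Lm {K : ℕ} (w : Fin K → Fin 3 → ℝ) (h : (Fin K × Fin 2 → Fin 3) → ℝ) :
    ip (Lm w) h = ∑ p, ∑ i : Fin 3, Real.sqrt (8 / 3) * w p i * ip (eb (tau (p, i))) h := by
  rw [Lm_eq]
  unfold ip
  simp only [Finset.sum_mul, Finset.mul_sum]
  rw [Finset.sum_comm]
  refine Finset.sum_congr rfl fun p _ => ?_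
  rw [Finset.sum_comm]
  refine Finset.sum_congr rfl fun i _ => Finset.sum_congr rfl fun a _ => by ring

lemma ip_comm' {ι : Type} [Fintype ι] (x y : ι → ℝ) : ip x y = ip y x := by
  unfold ip
  exact Finset.sum_congr rfl fun i _ => mul_comm _ _

lemma nsq_ip {ι : Type} [Fintype ι] (x : ι → ℝ) : nsq x = ip x x := by
  unfold ip nsq
  exact Finset.sum_congr rfl fun i _ => sq _

lemma sqrt83 : Real.sqrt (8 / 3) * Real.sqrt (8 / 3) = 8 / 3 :=
  Real.mul_self_sqrt (by norm_num)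

lemma sqrt8338 : Real.sqrt (8 / 3) * Real.sqrt (3 / 8) = 1 := by
  rw [← Real.sqrt_mul (by norm_num)]; norm_num

lemma sqrt38 : Real.sqrt (3 / 8) * Real.sqrt (3 / 8) = 3 / 8 :=
  Real.mul_self_sqrt (by norm_num)

lemma nsq_Lm {K : ℕ} (w : Fin K → Fin 3 → ℝ) : nsq (Lm w) = 8 / 3 * ∑ p, nsq (w p) := by
  rw [nsq_ip, ip_Lm]
  have e : ∀ p i, ip (eb (tau (p, i))) (Lm w) = Real.sqrt (8 / 3) * w p i := by
    intro p i
    rw [ip_comm', ip_Lm, ← Fintype.sum_prod_type (f := fun x : Fin K × Fin 3 =>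
      Real.sqrt (8 / 3) * w x.1 x.2 * ip (eb (tau (x.1, x.2))) (eb (tau (p, i))))]
    rw [Finset.sum_eq_single (p, i)]
    · rw [ip_eb, if_pos rfl, mul_one]
    · rintro ⟨q, j⟩ _ hne
      rw [ip_eb, if_neg (fun h => hne (tau_inj h)), mul_zero]
    · intro h; exact absurd (Finset.mem_univ _) h
  simp only [e, nsq]
  rw [Finset.mul_sum]
  refine Finset.sum_congr rfl fun p _ => ?_
  rw [Finset.mul_sum]
  refine Finset.sum_congr rfl fun i _ => ?_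
  linear_combination (w p i ^ 2) * sqrt83

theorem st_TANP' : ST_TANP := by
  intro K h
  set v : Fin K → Fin 3 → ℝ := fun p i => Real.sqrt (3 / 8) * ip (eb (tau (p, i))) h with hv
  have h1 : 8 / 3 * ∑ p, nsq (v p) = tq K h := by
    rw [tq_eq, Finset.mul_sum]
    refine Finset.sum_congr rfl fun p _ => ?_
    simp only [nsq, hv]
    rw [Finset.mul_sum]
    refine Finset.sum_congr rfl fun i _ => ?_
    linear_combination (8 / 3 * ip (eb (tau (p, i))) h ^ 2) * sqrt38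
  have h3 : ∀ w : Fin K → Fin 3 → ℝ, ip (Lm w) h = 8 / 3 * ∑ p, ip (w p) (v p) := by
    intro w
    rw [ip_Lm, Finset.mul_sum]
    refine Finset.sum_congr rfl fun p _ => ?_
    simp only [hv]
    conv_rhs => rw [ip]
    rw [Finset.mul_sum]
    refine Finset.sum_congr rfl fun i _ => ?_
    have e : Real.sqrt (8 / 3) = 8 / 3 * Real.sqrt (3 / 8) := by
      have h83 := sqrt8338
      have h8 := sqrt83
      have hpos : 0 < Real.sqrt (8 / 3) := Real.sqrt_pos.mpr (by norm_num)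
      have : Real.sqrt (8 / 3) * Real.sqrt (8 / 3) = Real.sqrt (8 / 3) * (8 / 3 * Real.sqrt (3 / 8)) := by
        rw [h8]; linear_combination -(8 / 3) * h83
      exact mul_left_cancel₀ hpos.ne' this
    rw [e]; ring
  refine ⟨v, h1, ?_, fun w => ⟨h3 w, nsq_Lm w⟩⟩
  have e1 : nsq (fun a => h a - Lm v a) = nsq h - 2 * ip (Lm v) h + nsq (Lm v) := by
    unfold nsq ip
    rw [Finset.mul_sum, ← Finset.sum_sub_distrib, ← Finset.sum_add_distrib]
    refine Finset.sum_congr rfl fun a _ => by ring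
  rw [e1, h3 v, nsq_Lm v, h1]
  have e2 : 8 / 3 * ∑ p, ip (v p) (v p) = tq K h := by
    rw [← h1]
    congr 1
    exact Finset.sum_congr rfl fun p _ => (nsq_ip _).symm
  rw [e2]; ring

/-- TANP in the form of the table. -/
theorem st_TANP (_ : ST_EBO) : ST_TANP := st_TANP'

end T5H72
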