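import Mathlib

/-!
# Linear maps of `M₃(ℝ)` which map `SO(3)` into `O(3)`
(T5, uniqueness block of `MP_2f9829_co`.)
-/

set_option maxHeartbeats 1000000

namespace T5P

open Matrix

abbrev M3 : Type := Matrix (Fin 3) (Fin 3) ℝ

/-- the cross product matrix -/
def cr (u : Fin 3 → ℝ) : M3 := !![0, -u 2, u 1; u 2, 0, -u 0; -u 1, u 0, 0]

/-- the rank one matrix `u uᵀ` -/
def oo (u : Fin 3 → ℝ) : M3 := Matrix.of fun i j => u i * u j

def nsq (u : Fin 3 → ℝ) : ℝ := u 0 ^ 2 + u 1 ^ 2 + u 2 ^ 2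

def rot (u : Fin 3 → ℝ) (c s : ℝ) : M3 := c • (1 : M3) + (1 - c) • oo u + s • cr u

lemma cr_tr (u : Fin 3 → ℝ) : (cr u)ᵀ = - cr u := by
  ext i j
  fin_cases i <;> fin_cases j <;> simp [cr]

lemma oo_tr (u : Fin 3 → ℝ) : (oo u)ᵀ = oo u := by
  ext i j
  simp [oo, mul_comm]

lemma oo_oo (u : Fin 3 → ℝ) : oo u * oo u = nsq u • oo u := by
  ext i j
  simp only [oo, nsq, Matrix.mul_apply, Fin.sum_univ_three, Matrix.of_apply, Matrix.smul_apply,
    smul_eq_mul]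
  ring

lemma cr_oo (u : Fin 3 → ℝ) : cr u * oo u = 0 := by
  ext i j
  fin_cases i <;>
  · simp [cr, oo, Matrix.mul_apply, Fin.sum_univ_three]
    ring

lemma oo_cr (u : Fin 3 → ℝ) : oo u * cr u = 0 := by
  ext i j
  fin_cases j <;>
  · simp [cr, oo, Matrix.mul_apply, Fin.sum_univ_three]
    ring

lemma cr_cr (u : Fin 3 → ℝ) : cr u * cr u = oo u - nsq u • (1 : M3) := by
  ext i j
  fin_cases i <;> fin_cases j <;>
  · simp [cr, oo, nsq, Matrix.mul_apply, Fin.sum_univ_three]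
    try ring

lemma rot_orth {u : Fin 3 → ℝ} (hu : nsq u = 1) {c s : ℝ}
    (hcs : c ^ 2 + s ^ 2 = 1) : (rot u c s)ᵀ * rot u c s = 1 := by
  have h1 : (rot u c s)ᵀ * rot u c s = (c ^ 2 + s ^ 2) • (1 : M3)
      + (2 * c * (1 - c) + (1 - c) ^ 2 - s ^ 2) • oo u := by
    simp only [rot, Matrix.transpose_add, Matrix.transpose_smul, Matrix.transpose_one, cr_tr,
      oo_tr, Matrix.add_mul, Matrix.mul_add, Matrix.smul_mul, Matrix.mul_smul, Matrix.one_mul,
      Matrix.mul_one, Matrix.neg_mul, oo_oo, cr_oo, oo_cr, cr_cr, hu]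
    module
  rw [h1, hcs]
  have : 2 * c * (1 - c) + (1 - c) ^ 2 - s ^ 2 = 0 := by linear_combination - hcs
  rw [this]; simp

lemma rot_det {u : Fin 3 → ℝ} (hu : nsq u = 1) {c s : ℝ}
    (hcs : c ^ 2 + s ^ 2 = 1) : (rot u c s).det = 1 := by
  rw [Matrix.det_fin_three]
  simp [rot, cr, oo]
  simp only [nsq] at hu
  linear_combination (c * s ^ 2 + (1 - c) * (c ^ 2 + s ^ 2 * (u 0 ^ 2 + u 1 ^ 2 + u 2 ^ 2 + 1))) * hu + hcs

lemma rot_mem {u : Fin 3 → ℝ} (hu : nsq u = 1) {c s : ℝ}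
    (hcs : c ^ 2 + s ^ 2 = 1) : rot u c s ∈ Matrix.specialOrthogonalGroup (Fin 3) ℝ := by
  rw [Matrix.mem_specialOrthogonalGroup_iff, Matrix.mem_orthogonalGroup_iff']
  exact ⟨by simpa using rot_orth hu hcs, rot_det hu hcs⟩

lemma sum_cr (a b : Fin 3 → ℝ) (i j : Fin 3) :
    (cr a * cr b) i j = b i * a j - (if i = j then a 0 * b 0 + a 1 * b 1 + a 2 * b 2 else 0) := by
  fin_cases i <;> fin_cases j <;>
  · simp [cr, Matrix.mul_apply, Fin.sum_univ_three]
    try ring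

/-- the algebra -/
lemma alg {P A : M3} (h1 : Pᵀ * P + Aᵀ * A = 1) (h2 : (2 : ℝ) • (Pᵀ * P) = P + Pᵀ)
    (h3 : Pᵀ * A + Aᵀ * P = 0) (h4 : A + Aᵀ = 0) :
    (A = 0 ∧ P = 1) ∨ ∃ a : Fin 3 → ℝ, nsq a = 1 ∧ A = cr a ∧ P = oo a := by
  obtain ⟨a, hA⟩ : ∃ a : Fin 3 → ℝ, A = cr a := by
    refine ⟨![A 2 1, A 0 2, A 1 0], ?_⟩
    ext i j
    have h00 := congrFun (congrFun h4 0) 0
    have h11 := congrFun (congrFun h4 1) 1
    have h22 := congrFun (congrFun h4 2) 2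
    have h01 := congrFun (congrFun h4 0) 1
    have h02 := congrFun (congrFun h4 0) 2
    have h12 := congrFun (congrFun h4 1) 2
    simp at h00 h11 h22 h01 h02 h12
    fin_cases i <;> fin_cases j <;> simp [cr] <;> linarith
  have hAA : Aᵀ * A = nsq a • (1 : M3) - oo a := by
    rw [hA, cr_tr, Matrix.neg_mul, cr_cr]; abel
  have hPP : Pᵀ * P = (1 - nsq a) • (1 : M3) + oo a := by
    have : Pᵀ * P = 1 - Aᵀ * A := by rw [← h1]; abel
    rw [this, hAA]; module
  have hPs : P + Pᵀ = (2 * (1 - nsq a)) • (1 : M3) + (2 : ℝ) • oo a := by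
    rw [← h2, hPP]; module
  obtain ⟨b, hP⟩ : ∃ b : Fin 3 → ℝ, P = (1 - nsq a) • (1 : M3) + oo a + cr b := by
    refine ⟨![(P 2 1 - P 1 2) / 2, (P 0 2 - P 2 0) / 2, (P 1 0 - P 0 1) / 2], ?_⟩
    ext i j
    have h00 := congrFun (congrFun hPs 0) 0
    have h11 := congrFun (congrFun hPs 1) 1
    have h22 := congrFun (congrFun hPs 2) 2
    have h01 := congrFun (congrFun hPs 0) 1
    have h02 := congrFun (congrFun hPs 0) 2
    have h12 := congrFun (congrFun hPs 1) 2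
    simp [oo] at h00 h11 h22 h01 h02 h12
    fin_cases i <;> fin_cases j <;> simp [cr, oo] <;> linarith
  have hPt : Pᵀ = (1 - nsq a) • (1 : M3) + oo a - cr b := by
    rw [hP]
    simp only [Matrix.transpose_add, Matrix.transpose_smul, Matrix.transpose_one, cr_tr, oo_tr]
    abel
  have h5 : cr a * cr b + cr b * cr a = 0 := by
    have e : Pᵀ * A + Aᵀ * P = - (cr a * cr b + cr b * cr a) := by
      rw [hPt, hA, cr_tr, hP]
      simp only [Matrix.add_mul, Matrix.sub_mul, Matrix.mul_add, Matrix.smul_mul, Matrix.mul_smul,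
        Matrix.one_mul, Matrix.mul_one, Matrix.neg_mul, cr_oo, oo_cr]
      module
    rw [e] at h3
    exact neg_eq_zero.mp h3
  have h6 : ∀ i j, b i * a j + a i * b j
      = if i = j then 2 * (a 0 * b 0 + a 1 * b 1 + a 2 * b 2) else 0 := by
    intro i j
    have := congrFun (congrFun h5 i) j
    rw [Matrix.add_apply, sum_cr, sum_cr, Matrix.zero_apply] at this
    split_ifs at this ⊢ with h
    · linarith
    · linarith
  have h00 := h6 0 0
  have h11 := h6 1 1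
  have h22 := h6 2 2
  have h01 := h6 0 1
  have h02 := h6 0 2
  have h12 := h6 1 2
  simp at h00 h11 h22 h01 h02 h12
  have hab : a 0 * b 0 + a 1 * b 1 + a 2 * b 2 = 0 := by linarith
  have hb0 : nsq a * b 0 = 0 := by
    simp only [nsq]; linear_combination a 0 * hab + a 0 * h00 + a 1 * h01 + a 2 * h02
  have hb1 : nsq a * b 1 = 0 := by
    simp only [nsq]; linear_combination a 1 * hab + a 1 * h11 + a 0 * h01 + a 2 * h12
  have hb2 : nsq a * b 2 = 0 := by
    simp only [nsq]; linear_combination a 2 * hab + a 2 * h22 + a 0 * h02 + a 1 * h12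
  by_cases hα : nsq a = 0
  · left
    have ha0 : a 0 = 0 := by simp only [nsq] at hα; nlinarith [sq_nonneg (a 0), sq_nonneg (a 1), sq_nonneg (a 2)]
    have ha1 : a 1 = 0 := by simp only [nsq] at hα; nlinarith [sq_nonneg (a 0), sq_nonneg (a 1), sq_nonneg (a 2)]
    have ha2 : a 2 = 0 := by simp only [nsq] at hα; nlinarith [sq_nonneg (a 0), sq_nonneg (a 1), sq_nonneg (a 2)]
    have hA0 : cr a = 0 := by
      ext i j; fin_cases i <;> fin_cases j <;> simp [cr, ha0, ha1, ha2]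
    have ho0 : oo a = 0 := by
      ext i j; fin_cases i <;> fin_cases j <;> simp [oo, ha0, ha1, ha2]
    rw [hα, ho0] at hP hPt hPP
    simp only [sub_zero, one_smul, add_zero] at hP hPt hPP
    have e : Pᵀ * P = 1 - cr b * cr b := by
      rw [hPt, hP]
      simp only [Matrix.sub_mul, Matrix.mul_add, Matrix.one_mul, Matrix.mul_one]
      abel
    rw [hPP, cr_cr] at e
    have e0 := congrFun (congrFun e 0) 0
    have e1 := congrFun (congrFun e 1) 1
    have e2 := congrFun (congrFun e 2) 2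
    simp [oo, nsq] at e0 e1 e2
    have hb0 : b 0 = 0 := by nlinarith [sq_nonneg (b 0), sq_nonneg (b 1), sq_nonneg (b 2)]
    have hb1 : b 1 = 0 := by nlinarith [sq_nonneg (b 0), sq_nonneg (b 1), sq_nonneg (b 2)]
    have hb2 : b 2 = 0 := by nlinarith [sq_nonneg (b 0), sq_nonneg (b 1), sq_nonneg (b 2)]
    have hB0 : cr b = 0 := by
      ext i j; fin_cases i <;> fin_cases j <;> simp [cr, hb0, hb1, hb2]
    refine ⟨by rw [hA, hA0], ?_⟩
    rw [hP, hB0]; simp
  · right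
    have hb0 : b 0 = 0 := (mul_eq_zero.mp hb0).resolve_left hα
    have hb1 : b 1 = 0 := (mul_eq_zero.mp hb1).resolve_left hα
    have hb2 : b 2 = 0 := (mul_eq_zero.mp hb2).resolve_left hα
    have hB0 : cr b = 0 := by
      ext i j; fin_cases i <;> fin_cases j <;> simp [cr, hb0, hb1, hb2]
    rw [hB0] at hP hPt
    have e : Pᵀ * P = ((1 - nsq a) ^ 2) • (1 : M3) + (2 - nsq a) • oo a := by
      rw [hPt, hP]
      simp only [Matrix.add_mul, Matrix.mul_add, Matrix.smul_mul, Matrix.mul_smul,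
        Matrix.one_mul, Matrix.mul_one, oo_oo, sub_zero, add_zero]
      module
    rw [hPP] at e
    have e0 := congrFun (congrFun e 0) 0
    have e1 := congrFun (congrFun e 1) 1
    have e2 := congrFun (congrFun e 2) 2
    simp [oo] at e0 e1 e2
    have hn : nsq a = a 0 ^ 2 + a 1 ^ 2 + a 2 ^ 2 := rfl
    have h7 : nsq a * (1 - nsq a) = 0 := by
      have : 3 * (1 - nsq a) + nsq a = 3 * (1 - nsq a) ^ 2 + (2 - nsq a) * nsq a := by
        rw [hn] at e0 e1 e2 ⊢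
        linear_combination e0 + e1 + e2
      nlinarith
    have h8 : nsq a = 1 := by
      have := (mul_eq_zero.mp h7).resolve_left hα
      linarith
    refine ⟨a, h8, hA, ?_⟩
    rw [hP, h8]; simp

lemma W_rot (W : M3 →ₗ[ℝ] M3) (h1 : W 1 = 1) (u : Fin 3 → ℝ) (c s : ℝ) :
    W (rot u c s) = c • (1 : M3) + (1 - c) • W (oo u) + s • W (cr u) := by
  simp only [rot, map_add, map_smul, h1]

lemma key (W : M3 →ₗ[ℝ] M3) (h1 : W 1 = 1)
    (hW : ∀ O ∈ Matrix.specialOrthogonalGroup (Fin 3) ℝ, (W O)ᵀ * W O = 1)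
    {u : Fin 3 → ℝ} (hu : nsq u = 1) :
    (W (cr u) = 0 ∧ W (oo u) = 1) ∨
      ∃ a : Fin 3 → ℝ, nsq a = 1 ∧ W (cr u) = cr a ∧ W (oo u) = oo a := by
  have h : ∀ c s : ℝ, c ^ 2 + s ^ 2 = 1 →
      (c • (1 : M3) + (1 - c) • W (oo u) + s • W (cr u))ᵀ *
        (c • (1 : M3) + (1 - c) • W (oo u) + s • W (cr u)) = 1 := by
    intro c s hcs
    rw [← W_rot W h1]
    exact hW _ (rot_mem hu hcs)
  set P := W (oo u) with hP
  set A := W (cr u) with hA
  have hx : ∀ c s : ℝ, c ^ 2 + s ^ 2 = 1 →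
      (c ^ 2) • (1 : M3) + (c * (1 - c)) • (P + Pᵀ) + ((1 - c) ^ 2) • (Pᵀ * P)
        + (s ^ 2) • (Aᵀ * A) + (c * s) • (A + Aᵀ) + ((1 - c) * s) • (Pᵀ * A + Aᵀ * P) = 1 := by
    intro c s hcs
    have := h c s hcs
    simp only [Matrix.transpose_add, Matrix.transpose_smul, Matrix.transpose_one,
      Matrix.add_mul, Matrix.mul_add, Matrix.smul_mul, Matrix.mul_smul, Matrix.one_mul,
      Matrix.mul_one] at this
    linear_combination (norm := module) this
  have e1 := hx 0 1 (by norm_num)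
  have e2 := hx 0 (-1) (by norm_num)
  have e3 := hx (-1) 0 (by norm_num)
  have e4 := hx (3 / 5) (4 / 5) (by norm_num)
  have e5 := hx (3 / 5) (-(4 / 5)) (by norm_num)
  have f3 : Pᵀ * A + Aᵀ * P = 0 := by
    have : (2 : ℝ) • (Pᵀ * A + Aᵀ * P) = 0 := by
      linear_combination (norm := module) e1 - e2
    exact (smul_eq_zero.mp this).resolve_left (by norm_num)
  have f1 : Pᵀ * P + Aᵀ * A = 1 := by
    rw [f3] at e1
    linear_combination (norm := module) e1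
  have f2 : (2 : ℝ) • (Pᵀ * P) = P + Pᵀ := by
    have : (2 : ℝ) • ((2 : ℝ) • (Pᵀ * P) - (P + Pᵀ)) = 0 := by
      linear_combination (norm := module) e3
    have := (smul_eq_zero.mp this).resolve_left (by norm_num)
    exact sub_eq_zero.mp this
  have f4 : A + Aᵀ = 0 := by
    rw [f3] at e4 e5
    have : (24 / 25 : ℝ) • (A + Aᵀ) = 0 := by
      linear_combination (norm := module) e4 - e5
    exact (smul_eq_zero.mp this).resolve_left (by norm_num)
  exact alg f1 f2 f3 f4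

lemma unit_scale (u : Fin 3 → ℝ) : ∃ (r : ℝ) (v : Fin 3 → ℝ), nsq v = 1 ∧ u = r • v := by
  by_cases h : nsq u = 0
  · have ha0 : u 0 = 0 := by simp only [nsq] at h; nlinarith [sq_nonneg (u 0), sq_nonneg (u 1), sq_nonneg (u 2)]
    have ha1 : u 1 = 0 := by simp only [nsq] at h; nlinarith [sq_nonneg (u 0), sq_nonneg (u 1), sq_nonneg (u 2)]
    have ha2 : u 2 = 0 := by simp only [nsq] at h; nlinarith [sq_nonneg (u 0), sq_nonneg (u 1), sq_nonneg (u 2)]
    refine ⟨0, ![1, 0, 0], by simp [nsq], ?_⟩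
    ext i; fin_cases i <;> simp [ha0, ha1, ha2]
  · have hpos : 0 < nsq u := lt_of_le_of_ne (by simp only [nsq]; positivity) (Ne.symm h)
    have hs : 0 < Real.sqrt (nsq u) := Real.sqrt_pos.mpr hpos
    refine ⟨Real.sqrt (nsq u), (Real.sqrt (nsq u))⁻¹ • u, ?_, ?_⟩
    · have : nsq ((Real.sqrt (nsq u))⁻¹ • u) = ((Real.sqrt (nsq u)) ^ 2)⁻¹ * nsq u := by
        simp only [nsq, Pi.smul_apply, smul_eq_mul]; ring
      rw [this, Real.sq_sqrt hpos.le, inv_mul_cancel₀ h]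
    · rw [smul_smul, mul_inv_cancel₀ hs.ne', one_smul]

lemma oo_smul (r : ℝ) (u : Fin 3 → ℝ) : oo (r • u) = (r ^ 2) • oo u := by
  ext i j; simp [oo]; ring

lemma cr_smul (r : ℝ) (u : Fin 3 → ℝ) : cr (r • u) = r • cr u := by
  ext i j; fin_cases i <;> fin_cases j <;> simp [cr]

lemma nsq_smul (r : ℝ) (u : Fin 3 → ℝ) : nsq (r • u) = r ^ 2 * nsq u := by
  simp [nsq]; ring

lemma trace_oo (a : Fin 3 → ℝ) : (oo a).trace = nsq a := by
  simp [Matrix.trace, oo, nsq, Fin.sum_univ_three]; ring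

lemma oo_expand (x y z : ℝ) : oo ![x, y, z] =
    (x ^ 2) • oo ![1, 0, 0] + (y ^ 2) • oo ![0, 1, 0] + (z ^ 2) • oo ![0, 0, 1]
    + (x * y) • (oo ![1, 1, 0] - oo ![1, 0, 0] - oo ![0, 1, 0])
    + (x * z) • (oo ![1, 0, 1] - oo ![1, 0, 0] - oo ![0, 0, 1])
    + (y * z) • (oo ![0, 1, 1] - oo ![0, 1, 0] - oo ![0, 0, 1]) := by
  ext i j
  simp only [oo, Matrix.add_apply, Matrix.sub_apply, Matrix.smul_apply, Matrix.of_apply,
    smul_eq_mul]
  fin_cases i <;> fin_cases j <;> · simp; try ring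

lemma trace_one_of_unit (W : M3 →ₗ[ℝ] M3) (h1 : W 1 = 1)
    (hW : ∀ O ∈ Matrix.specialOrthogonalGroup (Fin 3) ℝ, (W O)ᵀ * W O = 1)
    (u : Fin 3 → ℝ) : (W (oo u)).trace = nsq u := by
  have hd : ∀ v : Fin 3 → ℝ, (W (oo v)).trace = nsq v ∨ (W (oo v)).trace = 3 * nsq v := by
    intro v
    obtain ⟨r, w, hw, rfl⟩ := unit_scale v
    rw [oo_smul, map_smul, Matrix.trace_smul, nsq_smul, hw]
    rcases key W h1 hW hw with ⟨-, h⟩ | ⟨a, ha, -, h⟩
    · right; rw [h]; simp [Matrix.trace_one]; ring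
    · left; rw [h, trace_oo, ha]; simp
  have hs : (W (oo ![1, 0, 0])).trace + (W (oo ![0, 1, 0])).trace + (W (oo ![0, 0, 1])).trace = 3 := by
    rw [← Matrix.trace_add, ← Matrix.trace_add, ← map_add, ← map_add]
    have : oo ![1, 0, 0] + oo ![0, 1, 0] + oo ![0, 0, 1] = (1 : M3) := by
      ext i j; fin_cases i <;> fin_cases j <;> simp [oo]
    rw [this, h1]; simp [Matrix.trace_one]
  have hx := hd ![1, 0, 0]
  have hy := hd ![0, 1, 0]
  have hz := hd ![0, 0, 1]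
  simp [nsq] at hx hy hz
  have tx : (W (oo ![1, 0, 0])).trace = 1 := by
    rcases hx with h | h <;> rcases hy with h' | h' <;> rcases hz with h'' | h'' <;> linarith
  have ty : (W (oo ![0, 1, 0])).trace = 1 := by
    rcases hx with h | h <;> rcases hy with h' | h' <;> rcases hz with h'' | h'' <;> linarith
  have tz : (W (oo ![0, 0, 1])).trace = 1 := by
    rcases hx with h | h <;> rcases hy with h' | h' <;> rcases hz with h'' | h'' <;> linarith
  have hq : ∀ x y z : ℝ, (W (oo ![x, y, z])).trace = x ^ 2 + y ^ 2 + z ^ 2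
      + x * y * ((W (oo ![1, 1, 0])).trace - 2) + x * z * ((W (oo ![1, 0, 1])).trace - 2)
      + y * z * ((W (oo ![0, 1, 1])).trace - 2) := by
    intro x y z
    rw [oo_expand]
    simp only [map_add, map_sub, map_smul, Matrix.trace_add, Matrix.trace_sub, Matrix.trace_smul,
      smul_eq_mul, tx, ty, tz]
    ring
  have txy : (W (oo ![1, 1, 0])).trace = 2 := by
    have a1 := hd ![1, 1, 0]
    have a2 := hd ![1, -1, 0]
    rw [hq 1 (-1) 0] at a2
    simp [nsq] at a1 a2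
    rcases a1 with h | h <;> rcases a2 with h' | h' <;> linarith
  have txz : (W (oo ![1, 0, 1])).trace = 2 := by
    have a1 := hd ![1, 0, 1]
    have a2 := hd ![1, 0, -1]
    rw [hq 1 0 (-1)] at a2
    simp [nsq] at a1 a2
    rcases a1 with h | h <;> rcases a2 with h' | h' <;> linarith
  have tyz : (W (oo ![0, 1, 1])).trace = 2 := by
    have a1 := hd ![0, 1, 1]
    have a2 := hd ![0, 1, -1]
    rw [hq 0 1 (-1)] at a2
    simp [nsq] at a1 a2
    rcases a1 with h | h <;> rcases a2 with h' | h' <;> linarith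
  have hu : u = ![u 0, u 1, u 2] := by ext i; fin_cases i <;> rfl
  rw [hu, hq, txy, txz, tyz]
  simp [nsq]

lemma key1 (W : M3 →ₗ[ℝ] M3) (h1 : W 1 = 1)
    (hW : ∀ O ∈ Matrix.specialOrthogonalGroup (Fin 3) ℝ, (W O)ᵀ * W O = 1)
    {u : Fin 3 → ℝ} (hu : nsq u = 1) :
      ∃ a : Fin 3 → ℝ, nsq a = 1 ∧ W (cr u) = cr a ∧ W (oo u) = oo a := by
  rcases key W h1 hW hu with ⟨-, h⟩ | h
  · exfalso
    have := trace_one_of_unit W h1 hW u
    rw [h, hu] at this
    simp [Matrix.trace_one] at this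
  · exact h

/-- the axial vector of a matrix -/
def ax (A : M3) : Fin 3 → ℝ := ![A 2 1, A 0 2, A 1 0]

lemma ax_cr (a : Fin 3 → ℝ) : ax (cr a) = a := by
  ext i; fin_cases i <;> simp [ax, cr]

lemma cr_expand (u : Fin 3 → ℝ) :
    cr u = u 0 • cr ![1, 0, 0] + u 1 • cr ![0, 1, 0] + u 2 • cr ![0, 0, 1] := by
  ext i j
  fin_cases i <;> fin_cases j <;> simp [cr]

lemma exists_V (W : M3 →ₗ[ℝ] M3) (h1 : W 1 = 1)
    (hW : ∀ O ∈ Matrix.specialOrthogonalGroup (Fin 3) ℝ, (W O)ᵀ * W O = 1) :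
    ∃ V : M3, ∀ u : Fin 3 → ℝ, nsq (V *ᵥ u) = nsq u ∧ W (cr u) = cr (V *ᵥ u) ∧
      W (oo u) = oo (V *ᵥ u) := by
  set v0 := ax (W (cr ![1, 0, 0])) with hv0
  set v1 := ax (W (cr ![0, 1, 0])) with hv1
  set v2 := ax (W (cr ![0, 0, 1])) with hv2
  refine ⟨Matrix.of fun i j => ![v0 i, v1 i, v2 i] j, ?_⟩
  have hax : ∀ u, ax (W (cr u)) = (Matrix.of fun i j => ![v0 i, v1 i, v2 i] j) *ᵥ u := by
    intro u
    rw [cr_expand]
    simp only [map_add, map_smul]
    ext i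
    simp only [Matrix.mulVec, dotProduct, Fin.sum_univ_three, Matrix.of_apply]
    simp [v0, v1, v2]
    fin_cases i <;> simp [ax] <;> ring
  have hunit : ∀ u, nsq u = 1 → nsq ((Matrix.of fun i j => ![v0 i, v1 i, v2 i] j) *ᵥ u) = 1 ∧
      W (cr u) = cr ((Matrix.of fun i j => ![v0 i, v1 i, v2 i] j) *ᵥ u) ∧
      W (oo u) = oo ((Matrix.of fun i j => ![v0 i, v1 i, v2 i] j) *ᵥ u) := by
    intro u hu
    obtain ⟨a, ha, hc, ho⟩ := key1 W h1 hW hu
    have e := hax u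
    rw [hc, ax_cr] at e
    rw [← e]
    exact ⟨ha, hc, ho⟩
  intro u
  obtain ⟨r, w, hw, rfl⟩ := unit_scale u
  obtain ⟨g1, g2, g3⟩ := hunit w hw
  rw [Matrix.mulVec_smul]
  refine ⟨?_, ?_, ?_⟩
  · rw [nsq_smul, nsq_smul, g1, hw]
  · rw [cr_smul, cr_smul, map_smul, g2]
  · rw [oo_smul, oo_smul, map_smul, g3]

lemma orth_of_nsq {V : M3} (h : ∀ u, nsq (V *ᵥ u) = nsq u) : Vᵀ * V = 1 := by
  have a0 := h ![1, 0, 0]
  have a1 := h ![0, 1, 0]
  have a2 := h ![0, 0, 1]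
  have a3 := h ![1, 1, 0]
  have a4 := h ![1, 0, 1]
  have a5 := h ![0, 1, 1]
  simp only [nsq, Matrix.mulVec, dotProduct, Fin.sum_univ_three] at a0 a1 a2 a3 a4 a5
  simp at a0 a1 a2 a3 a4 a5
  ext i j
  simp only [Matrix.mul_apply, Fin.sum_univ_three, Matrix.transpose_apply]
  fin_cases i <;> fin_cases j <;> simp <;> nlinarith

lemma oo_conj (V : M3) (u : Fin 3 → ℝ) : oo (V *ᵥ u) = V * oo u * Vᵀ := by
  ext i j
  simp only [oo, Matrix.mul_apply, Fin.sum_univ_three, Matrix.transpose_apply, Matrix.mulVec,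
    dotProduct, Matrix.of_apply]
  ring

lemma cr_conj' (V : M3) (u : Fin 3 → ℝ) : Vᵀ * cr (V *ᵥ u) * V = V.det • cr u := by
  rw [Matrix.det_fin_three]
  ext i j
  simp only [Matrix.mul_apply, Fin.sum_univ_three, Matrix.transpose_apply, Matrix.smul_apply,
    smul_eq_mul]
  fin_cases i <;> fin_cases j <;>
  · simp [cr, Matrix.mulVec, dotProduct, Fin.sum_univ_three]
    ring

lemma cr_conj {V : M3} (hV : Vᵀ * V = 1) (u : Fin 3 → ℝ) :
    cr (V *ᵥ u) = V.det • (V * cr u * Vᵀ) := by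
  have hV' : V * Vᵀ = 1 := mul_eq_one_comm.mp hV
  have h := cr_conj' V u
  calc cr (V *ᵥ u) = (V * Vᵀ) * cr (V *ᵥ u) * (V * Vᵀ) := by rw [hV']; simp
    _ = V * (Vᵀ * cr (V *ᵥ u) * V) * Vᵀ := by simp only [Matrix.mul_assoc]
    _ = V.det • (V * cr u * Vᵀ) := by rw [h]; simp

lemma decomp (N : M3) : N =
    (N 0 0 • oo ![1, 0, 0] + N 1 1 • oo ![0, 1, 0] + N 2 2 • oo ![0, 0, 1]
    + ((N 0 1 + N 1 0) / 2) • (oo ![1, 1, 0] - oo ![1, 0, 0] - oo ![0, 1, 0])
    + ((N 0 2 + N 2 0) / 2) • (oo ![1, 0, 1] - oo ![1, 0, 0] - oo ![0, 0, 1])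
    + ((N 1 2 + N 2 1) / 2) • (oo ![0, 1, 1] - oo ![0, 1, 0] - oo ![0, 0, 1]))
    + cr ![(N 2 1 - N 1 2) / 2, (N 0 2 - N 2 0) / 2, (N 1 0 - N 0 1) / 2] := by
  ext i j
  simp only [oo, Matrix.add_apply, Matrix.sub_apply, Matrix.smul_apply, Matrix.of_apply,
    smul_eq_mul, cr]
  fin_cases i <;> fin_cases j <;> · simp; try ring

/-- symmetric part -/
noncomputable def sy (N : M3) : M3 := N 0 0 • oo ![1, 0, 0] + N 1 1 • oo ![0, 1, 0] + N 2 2 • oo ![0, 0, 1]
    + ((N 0 1 + N 1 0) / 2) • (oo ![1, 1, 0] - oo ![1, 0, 0] - oo ![0, 1, 0])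
    + ((N 0 2 + N 2 0) / 2) • (oo ![1, 0, 1] - oo ![1, 0, 0] - oo ![0, 0, 1])
    + ((N 1 2 + N 2 1) / 2) • (oo ![0, 1, 1] - oo ![0, 1, 0] - oo ![0, 0, 1])

/-- axial vector of the antisymmetric part -/
noncomputable def an (N : M3) : Fin 3 → ℝ :=
  ![(N 2 1 - N 1 2) / 2, (N 0 2 - N 2 0) / 2, (N 1 0 - N 0 1) / 2]

lemma decomp' (N : M3) : N = sy N + cr (an N) := decomp N

lemma decomp_tr (N : M3) : Nᵀ = sy N - cr (an N) := by
  ext i j
  simp only [oo, sy, an, Matrix.add_apply, Matrix.sub_apply, Matrix.smul_apply, Matrix.of_apply,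
    smul_eq_mul, cr, Matrix.transpose_apply]
  fin_cases i <;> fin_cases j <;> · simp; try ring

/-- **Normalised form.** -/
theorem preserver_one (W : M3 →ₗ[ℝ] M3) (h1 : W 1 = 1)
    (hW : ∀ O ∈ Matrix.specialOrthogonalGroup (Fin 3) ℝ, (W O)ᵀ * W O = 1) :
    ∃ V ∈ Matrix.specialOrthogonalGroup (Fin 3) ℝ,
      (∀ N, W N = V * N * Vᵀ) ∨ (∀ N, W N = V * Nᵀ * Vᵀ) := by
  obtain ⟨V, hV⟩ := exists_V W h1 hW
  have hVV : Vᵀ * V = 1 := orth_of_nsq fun u => (hV u).1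
  have hsy : ∀ N, W (sy N) = V * sy N * Vᵀ := by
    intro N
    simp only [sy, map_add, map_sub, map_smul, (hV _).2.2, oo_conj, Matrix.mul_add, Matrix.add_mul,
      Matrix.mul_sub, Matrix.sub_mul, Matrix.mul_smul, Matrix.smul_mul]
  have hcr : ∀ u, W (cr u) = V.det • (V * cr u * Vᵀ) := by
    intro u; rw [(hV u).2.1, cr_conj hVV]
  have hdet : V.det = 1 ∨ V.det = -1 := by
    have := congrArg Matrix.det hVV
    rw [Matrix.det_mul, Matrix.det_transpose, Matrix.det_one] at this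
    exact mul_self_eq_one_iff.mp this
  rcases hdet with hd | hd
  · refine ⟨V, ?_, Or.inl ?_⟩
    · rw [Matrix.mem_specialOrthogonalGroup_iff, Matrix.mem_orthogonalGroup_iff']
      exact ⟨by simpa using hVV, hd⟩
    · intro N
      have e1 : W N = W (sy N) + W (cr (an N)) := by rw [← map_add, ← decomp']
      have e2 : V * N * Vᵀ = V * sy N * Vᵀ + V * cr (an N) * Vᵀ := by
        rw [← Matrix.add_mul, ← Matrix.mul_add, ← decomp']
      rw [e1, e2, hsy, hcr, hd, one_smul]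
  · refine ⟨-V, ?_, Or.inr ?_⟩
    · rw [Matrix.mem_specialOrthogonalGroup_iff, Matrix.mem_orthogonalGroup_iff']
      refine ⟨by simpa using hVV, ?_⟩
      rw [Matrix.det_neg, hd]; norm_num
    · intro N
      have e1 : W N = W (sy N) + W (cr (an N)) := by rw [← map_add, ← decomp']
      rw [decomp_tr N, e1, hsy, hcr, hd, Matrix.transpose_neg, Matrix.mul_sub, Matrix.sub_mul]
      simp only [Matrix.neg_mul, Matrix.mul_neg, neg_neg, neg_smul, one_smul]
      abel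

lemma so_left {O : M3} (h : O ∈ Matrix.specialOrthogonalGroup (Fin 3) ℝ) : Oᵀ * O = 1 := by
  have h1 := (Matrix.mem_specialOrthogonalGroup_iff.mp h).1
  rw [Matrix.mem_orthogonalGroup_iff'] at h1
  simpa using h1

/-- **Linear maps of `M₃(ℝ)` which map `SO(3)` into `SO(3)`.** -/
theorem preserver (W : M3 →ₗ[ℝ] M3)
    (hW : ∀ O ∈ Matrix.specialOrthogonalGroup (Fin 3) ℝ,
      W O ∈ Matrix.specialOrthogonalGroup (Fin 3) ℝ) :
    ∃ U ∈ Matrix.specialOrthogonalGroup (Fin 3) ℝ, ∃ V ∈ Matrix.specialOrthogonalGroup (Fin 3) ℝ,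
      (∀ N, W N = U * N * V) ∨ (∀ N, W N = U * Nᵀ * V) := by
  have h0 := hW 1 (one_mem _)
  set O0 := W 1 with hO0
  have hO0' : O0ᵀ * O0 = 1 := by
    exact so_left h0
  have hO0'' : O0 * O0ᵀ = 1 := mul_eq_one_comm.mp hO0'
  obtain ⟨V, hV, h⟩ := preserver_one ((LinearMap.mulLeft ℝ O0ᵀ).comp W) (by simp [← hO0, hO0'])
    (by
      intro O hO
      have h2 : (W O)ᵀ * W O = 1 := so_left (hW O hO)
      simp only [LinearMap.comp_apply, LinearMap.mulLeft_apply, Matrix.transpose_mul,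
        Matrix.transpose_transpose]
      calc (W O)ᵀ * O0 * (O0ᵀ * W O) = (W O)ᵀ * (O0 * O0ᵀ) * W O := by
            simp only [Matrix.mul_assoc]
        _ = 1 := by rw [hO0'', Matrix.mul_one, h2])
  have hVt : Vᵀ ∈ Matrix.specialOrthogonalGroup (Fin 3) ℝ := by
    have h1 := Matrix.mem_specialOrthogonalGroup_iff.mp hV
    have h2 : V * Vᵀ = 1 := mul_eq_one_comm.mp (so_left hV)
    rw [Matrix.mem_specialOrthogonalGroup_iff, Matrix.mem_orthogonalGroup_iff']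
    refine ⟨?_, by rw [Matrix.det_transpose]; exact h1.2⟩
    simpa using h2
  refine ⟨O0 * V, mul_mem h0 hV, Vᵀ, hVt, ?_⟩
  rcases h with h | h
  · left
    intro N
    have := h N
    simp only [LinearMap.comp_apply, LinearMap.mulLeft_apply] at this
    calc W N = (O0 * O0ᵀ) * W N := by rw [hO0'', Matrix.one_mul]
      _ = O0 * (O0ᵀ * W N) := by simp only [Matrix.mul_assoc]
      _ = O0 * V * N * Vᵀ := by rw [this]; simp only [Matrix.mul_assoc]
  · right
    intro N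
    have := h N
    simp only [LinearMap.comp_apply, LinearMap.mulLeft_apply] at this
    calc W N = (O0 * O0ᵀ) * W N := by rw [hO0'', Matrix.one_mul]
      _ = O0 * (O0ᵀ * W N) := by simp only [Matrix.mul_assoc]
      _ = O0 * V * Nᵀ * Vᵀ := by rw [this]; simp only [Matrix.mul_assoc]

end T5P
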