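import Pool.Agent.Helper46.T5.Stmts
import Pool.Agent.Helper72.T5.Pres

set_option autoImplicit false

namespace T5P

open Pool.Agent.Helper46.T5

lemma SO3_iff (O : Matrix (Fin 3) (Fin 3) ℝ) :
    SO3 O ↔ O ∈ Matrix.specialOrthogonalGroup (Fin 3) ℝ := by
  rw [Matrix.mem_specialOrthogonalGroup_iff, Matrix.mem_orthogonalGroup_iff]
  rfl

theorem st_PRES : ST_PRES := by
  intro W hW
  obtain ⟨U, hU, V, hV, h⟩ := preserver W (fun O hO => (SO3_iff _).mp (hW O ((SO3_iff O).mpr hO)))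
  exact ⟨U, V, ((SO3_iff U).mpr hU).1, ((SO3_iff V).mpr hV).1, h⟩

end T5P
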